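import Pool.Agent.Helper94.LK.Spec

/-!
MP_e4073d_mp : part K1, basic facts on `kap`.
-/

open MeasureTheory Filter Topology Set
open scoped ENNReal

namespace Pool.Agent.Helper38.LK

open Pool.Agent.Helper94.LK

/-- the integrand of `kap` -/
noncomputable def gk (r t : ℝ) : ℝ := (4 * Real.pi * t)⁻¹ * Real.exp (-t - r ^ 2 / (4 * t))

lemma kap_eq (r : ℝ) : kap r = ∫ t in Ioi (0 : ℝ), gk r t := rfl

lemma gk_nonneg (r : ℝ) {t : ℝ} (ht : 0 < t) : 0 ≤ gk r t := by
  unfold gk; positivity

lemma gk_pos (r : ℝ) {t : ℝ} (ht : 0 < t) : 0 < gk r t := by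
  unfold gk; positivity

lemma gk_meas2 : Measurable (Function.uncurry gk) := by
  unfold gk Function.uncurry
  fun_prop

lemma gk_meas (r : ℝ) : Measurable (gk r) := gk_meas2.comp measurable_prodMk_left

/-- `exp (-x) ≤ 1/x` -/
lemma exp_neg_le {x : ℝ} (hx : 0 < x) : Real.exp (-x) ≤ 1 / x := by
  rw [Real.exp_neg, ← one_div]
  exact one_div_le_one_div_of_le hx (by linarith [Real.add_one_le_exp x])

lemma gk_le {r t : ℝ} (hr : 0 < r) (ht : 0 < t) :
    gk r t ≤ 1 / (Real.pi * r ^ 2) * Real.exp (-t) := by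
  unfold gk
  have h1 : Real.exp (-t - r ^ 2 / (4 * t)) = Real.exp (-t) * Real.exp (-(r ^ 2 / (4 * t))) := by
    rw [← Real.exp_add]; ring_nf
  have h2 : Real.exp (-(r ^ 2 / (4 * t))) ≤ 1 / (r ^ 2 / (4 * t)) := exp_neg_le (by positivity)
  rw [h1]
  have h3 : (4 * Real.pi * t)⁻¹ * (Real.exp (-t) * Real.exp (-(r ^ 2 / (4 * t)))) ≤
      (4 * Real.pi * t)⁻¹ * (Real.exp (-t) * (1 / (r ^ 2 / (4 * t)))) := by
    gcongr
  refine h3.trans (le_of_eq ?_)
  have := Real.pi_pos
  field_simp

lemma exp_int : IntegrableOn (fun t : ℝ => Real.exp (-t)) (Ioi 0) := by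
  simpa using integrableOn_exp_neg_Ioi 0

lemma gk_int {r : ℝ} (hr : 0 < r) : IntegrableOn (gk r) (Ioi 0) := by
  refine Integrable.mono' (exp_int.const_mul (1 / (Real.pi * r ^ 2)))
    (gk_meas r).aestronglyMeasurable ?_
  filter_upwards [ae_restrict_mem measurableSet_Ioi] with t ht
  rw [Real.norm_of_nonneg (gk_nonneg r ht)]
  exact gk_le hr ht

lemma int_pos {h : ℝ → ℝ} (hi : IntegrableOn h (Ioi 0)) (hp : ∀ t, 0 < t → 0 < h t) :
    0 < ∫ t in Ioi (0 : ℝ), h t := by
  rw [setIntegral_pos_iff_support_of_nonneg_ae ?_ hi]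
  · have : Function.support h ∩ Ioi 0 = Ioi 0 := by
      ext t
      simp only [mem_inter_iff, Function.mem_support, mem_Ioi, and_iff_right_iff_imp]
      intro ht
      exact (hp t ht).ne'
    rw [this]
    simp
  · filter_upwards [ae_restrict_mem measurableSet_Ioi] with t ht
    exact (hp t ht).le

/-- upper bound of `kap` -/
lemma kap_le {r : ℝ} (hr : 0 < r) : kap r ≤ 1 / (Real.pi * r ^ 2) := by
  rw [kap_eq]
  have h1 : ∫ t in Ioi (0 : ℝ), gk r t ≤
      ∫ t in Ioi (0 : ℝ), 1 / (Real.pi * r ^ 2) * Real.exp (-t) := by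
    refine setIntegral_mono_on (gk_int hr) (exp_int.const_mul _) measurableSet_Ioi ?_
    intro t ht
    exact gk_le hr ht
  refine h1.trans (le_of_eq ?_)
  rw [integral_const_mul, integral_exp_neg_Ioi_zero, mul_one]

theorem k1_thm : S_K1 where
  meas := by
    have h : StronglyMeasurable (fun r : ℝ => ∫ t in Ioi (0 : ℝ), gk r t) :=
      StronglyMeasurable.integral_prod_right (ν := volume.restrict (Ioi (0 : ℝ)))
        gk_meas2.stronglyMeasurable
    exact h.measurable
  nonneg := fun r => by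
    rw [kap_eq]
    refine setIntegral_nonneg measurableSet_Ioi ?_
    intro t ht
    exact gk_nonneg r ht
  pos := fun r hr => by
    rw [kap_eq]
    exact int_pos (gk_int hr) (fun t ht => gk_pos r ht)
  anti := by
    intro r hr r' hr' hrr'
    rw [mem_Ioi] at hr hr'
    have h1 : 0 < ∫ t in Ioi (0 : ℝ), (gk r t - gk r' t) := by
      refine int_pos ((gk_int hr).sub (gk_int hr')) ?_
      intro t ht
      have h2 : r ^ 2 / (4 * t) < r' ^ 2 / (4 * t) := by
        gcongr
      have h3 : Real.exp (-t - r' ^ 2 / (4 * t)) < Real.exp (-t - r ^ 2 / (4 * t)) :=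
        Real.exp_lt_exp.mpr (by linarith)
      have h4 : 0 < (4 * Real.pi * t)⁻¹ := by positivity
      unfold gk
      nlinarith [mul_lt_mul_of_pos_left h3 h4]
    rw [integral_sub (gk_int hr) (gk_int hr')] at h1
    rw [kap_eq, kap_eq]
    linarith
  cont := by
    intro r₀ hr₀
    rw [mem_Ioi] at hr₀
    refine ContinuousAt.continuousWithinAt ?_
    have h : ContinuousAt (fun r : ℝ => ∫ t in Ioi (0 : ℝ), gk r t) r₀ := by
      refine continuousAt_of_dominated
        (bound := fun t => 4 / (Real.pi * r₀ ^ 2) * Real.exp (-t)) ?_ ?_ ?_ ?_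
      · exact Eventually.of_forall fun r => (gk_meas r).aestronglyMeasurable
      · have h1 : ∀ᶠ r in 𝓝 r₀, r₀ / 2 < r := lt_mem_nhds (by linarith)
        filter_upwards [h1] with r hr
        filter_upwards [ae_restrict_mem measurableSet_Ioi] with t ht
        rw [Real.norm_of_nonneg (gk_nonneg r ht)]
        have hr0 : 0 < r := by linarith
        refine (gk_le hr0 ht).trans ?_
        have h2 : 1 / (Real.pi * r ^ 2) ≤ 4 / (Real.pi * r₀ ^ 2) := by
          have hπ := Real.pi_pos
          rw [div_le_div_iff₀ (by positivity) (by positivity)]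
          have h3 : r₀ ^ 2 ≤ 4 * r ^ 2 := by nlinarith
          nlinarith [mul_le_mul_of_nonneg_left h3 hπ.le]
        exact mul_le_mul_of_nonneg_right h2 (Real.exp_pos _).le
      · exact exp_int.const_mul _
      · refine Eventually.of_forall fun t => ?_
        unfold gk
        fun_prop
    exact h

end Pool.Agent.Helper38.LK
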