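import Pool.Agent.Helper38.LK.K1

/-!
MP_e4073d_mp : parts K2 and K3, moments and decay of `kap`.
-/

open MeasureTheory Filter Topology Set
open scoped ENNReal

namespace Pool.Agent.Helper38.LK

open Pool.Agent.Helper94.LK

lemma gk_factor (u : ℝ) {t : ℝ} (ht : 0 < t) :
    gk |u| t = (4 * Real.pi * t)⁻¹ * Real.exp (-t) * Real.exp (-(1 / (4 * t)) * u ^ 2) := by
  unfold gk
  have h1 : -t - |u| ^ 2 / (4 * t) = -t + -(1 / (4 * t)) * u ^ 2 := by
    rw [sq_abs]
    ring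
  rw [h1, Real.exp_add, mul_assoc ((4 * Real.pi * t)⁻¹)]

lemma gauss0 {t : ℝ} (ht : 0 < t) :
    Integrable (fun u : ℝ => gk |u| t) ∧
      ∫ u : ℝ, gk |u| t = (4 * Real.pi) ^ (-(1 / 2) : ℝ) * (Real.exp (-t) * t ^ ((1 / 2 : ℝ) - 1)) := by
  have hb : 0 < 1 / (4 * t) := by positivity
  have h1 : (fun u : ℝ => gk |u| t) = fun u : ℝ =>
      (4 * Real.pi * t)⁻¹ * Real.exp (-t) * Real.exp (-(1 / (4 * t)) * u ^ 2) := by
    funext u
    exact gk_factor u ht
  constructor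
  · rw [h1]
    exact (integrable_exp_neg_mul_sq hb).const_mul _
  · rw [h1, integral_const_mul, integral_gaussian]
    have hπ := Real.pi_pos
    have h2 : Real.pi / (1 / (4 * t)) = 4 * Real.pi * t := by field_simp
    rw [h2]
    have h3 : (4 * Real.pi * t)⁻¹ * √(4 * Real.pi * t) = (4 * Real.pi * t) ^ (-(1 / 2) : ℝ) := by
      rw [Real.sqrt_eq_rpow, ← Real.rpow_neg_one (4 * Real.pi * t), ← Real.rpow_add (by positivity)]
      norm_num
    have h4 : (4 * Real.pi * t) ^ (-(1 / 2) : ℝ) =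
        (4 * Real.pi) ^ (-(1 / 2) : ℝ) * t ^ ((1 / 2 : ℝ) - 1) := by
      rw [Real.mul_rpow (by positivity) ht.le]
      norm_num
    calc (4 * Real.pi * t)⁻¹ * Real.exp (-t) * √(4 * Real.pi * t)
        = ((4 * Real.pi * t)⁻¹ * √(4 * Real.pi * t)) * Real.exp (-t) := by ring
      _ = _ := by rw [h3, h4]; ring

lemma int_sq_gauss {b : ℝ} (hb : 0 < b) :
    Integrable (fun u : ℝ => u ^ 2 * Real.exp (-b * u ^ 2)) ∧
      ∫ u : ℝ, u ^ 2 * Real.exp (-b * u ^ 2) = b ^ (-(3 / 2) : ℝ) * (√Real.pi / 2) := by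
  constructor
  · have h := integrable_rpow_mul_exp_neg_mul_sq hb (s := 2) (by norm_num)
    refine h.congr (Eventually.of_forall fun u => ?_)
    simp only []
    rw [Real.rpow_two]
  · have h1 : ∫ u : ℝ, u ^ 2 * Real.exp (-b * u ^ 2) =
        ∫ u : ℝ, (fun x => x ^ 2 * Real.exp (-b * x ^ 2)) |u| := by
      congr 1
      funext u
      simp only [sq_abs]
    rw [h1, integral_comp_abs (f := fun x => x ^ 2 * Real.exp (-b * x ^ 2))]
    have h2 : ∫ x in Ioi (0 : ℝ), x ^ 2 * Real.exp (-b * x ^ 2) =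
        ∫ x in Ioi (0 : ℝ), x ^ (2 : ℝ) * Real.exp (-b * x ^ (2 : ℝ)) := by
      congr 1
      funext x
      rw [Real.rpow_two]
    rw [h2, integral_rpow_mul_exp_neg_mul_rpow (by norm_num) (by norm_num) hb]
    have h3 : Real.Gamma ((2 + 1) / 2) = √Real.pi / 2 := by
      have : ((2 : ℝ) + 1) / 2 = 1 / 2 + 1 := by norm_num
      rw [this, Real.Gamma_add_one (by norm_num), Real.Gamma_one_half_eq]
      ring
    rw [h3]
    have h4 : (-(2 + 1) / 2 : ℝ) = -(3 / 2) := by norm_num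
    rw [h4]
    ring

lemma gauss2 {t : ℝ} (ht : 0 < t) :
    Integrable (fun u : ℝ => u ^ 2 * gk |u| t) ∧
      ∫ u : ℝ, u ^ 2 * gk |u| t = (√Real.pi)⁻¹ * (Real.exp (-t) * t ^ ((3 / 2 : ℝ) - 1)) := by
  have hb : 0 < 1 / (4 * t) := by positivity
  have h1 : (fun u : ℝ => u ^ 2 * gk |u| t) = fun u : ℝ =>
      (4 * Real.pi * t)⁻¹ * Real.exp (-t) * (u ^ 2 * Real.exp (-(1 / (4 * t)) * u ^ 2)) := by
    funext u
    rw [gk_factor u ht]
    ring
  obtain ⟨h2, h3⟩ := int_sq_gauss hb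
  constructor
  · rw [h1]
    exact h2.const_mul _
  · rw [h1, integral_const_mul, h3]
    have hπ := Real.pi_pos
    have h4 : (1 / (4 * t)) ^ (-(3 / 2) : ℝ) = 8 * t ^ (3 / 2 : ℝ) := by
      rw [one_div, Real.inv_rpow (by positivity), ← Real.rpow_neg (by positivity), neg_neg,
        Real.mul_rpow (by norm_num) ht.le]
      congr 1
      have : (4 : ℝ) = 2 ^ (2 : ℝ) := by norm_num
      rw [this, ← Real.rpow_mul (by norm_num)]
      norm_num
    have h5 : t ^ (3 / 2 : ℝ) = t ^ ((3 / 2 : ℝ) - 1) * t := by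
      rw [Real.rpow_sub_one ht.ne']
      field_simp
    have h6 : √Real.pi * √Real.pi = Real.pi := Real.mul_self_sqrt hπ.le
    have h7 : 0 < √Real.pi := Real.sqrt_pos.mpr hπ
    rw [h4, h5]
    have h8 : Real.pi⁻¹ * √Real.pi = (√Real.pi)⁻¹ := by
      rw [inv_mul_eq_div, div_eq_iff hπ.ne', inv_mul_eq_div, eq_div_iff h7.ne']
      exact h6
    calc (4 * Real.pi * t)⁻¹ * Real.exp (-t) * (8 * (t ^ ((3 / 2 : ℝ) - 1) * t) * (√Real.pi / 2))
        = (Real.pi⁻¹ * √Real.pi) * (t⁻¹ * t) * (Real.exp (-t) * t ^ ((3 / 2 : ℝ) - 1)) := by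
          rw [mul_inv, mul_inv]; ring
      _ = _ := by rw [inv_mul_cancel₀ ht.ne', h8, mul_one]

/-- Tonelli for a weight `w u * gk |u| t` -/
lemma tonelli (w : ℝ → ℝ) (hw : Measurable w) (hw0 : ∀ u, 0 ≤ w u) (c s : ℝ) (hs : 0 < s)
    (h : ∀ t : ℝ, 0 < t → Integrable (fun u : ℝ => w u * gk |u| t) ∧
      ∫ u : ℝ, w u * gk |u| t = c * (Real.exp (-t) * t ^ (s - 1))) :
    Integrable (fun u : ℝ => w u * kap |u|) ∧
      ∫ u : ℝ, w u * kap |u| = c * Real.Gamma s := by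
  have hG : IntegrableOn (fun t : ℝ => Real.exp (-t) * t ^ (s - 1)) (Ioi 0) :=
    Real.GammaIntegral_convergent hs
  have hmeas : Measurable (fun z : ℝ × ℝ => w z.1 * gk |z.1| z.2) := by
    have h1 : Measurable (fun z : ℝ × ℝ => gk |z.1| z.2) := by
      have h2 : Measurable (fun z : ℝ × ℝ => ((|z.1|, z.2) : ℝ × ℝ)) := by fun_prop
      exact gk_meas2.comp h2
    exact (hw.comp measurable_fst).mul h1
  have hprod : Integrable (fun z : ℝ × ℝ => w z.1 * gk |z.1| z.2)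
      (volume.prod (volume.restrict (Ioi (0 : ℝ)))) := by
    rw [integrable_prod_iff' hmeas.aestronglyMeasurable]
    constructor
    · filter_upwards [ae_restrict_mem measurableSet_Ioi] with t ht
      exact (h t ht).1
    · refine (hG.const_mul c).congr ?_
      filter_upwards [ae_restrict_mem measurableSet_Ioi] with t ht
      rw [← (h t ht).2]
      congr 1
      funext u
      rw [Real.norm_of_nonneg (mul_nonneg (hw0 u) (gk_nonneg _ ht))]
  have hk : (fun u : ℝ => w u * kap |u|) = fun u => ∫ t in Ioi (0 : ℝ), w u * gk |u| t := by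
    funext u
    rw [integral_const_mul, kap_eq]
  constructor
  · rw [hk]
    exact hprod.integral_prod_left
  · rw [hk]
    have h1 := integral_integral_swap (μ := (volume : Measure ℝ))
      (ν := volume.restrict (Ioi (0 : ℝ))) (f := fun u t => w u * gk |u| t) hprod
    rw [h1]
    have h2 : ∫ t in Ioi (0 : ℝ), ∫ u : ℝ, w u * gk |u| t =
        ∫ t in Ioi (0 : ℝ), c * (Real.exp (-t) * t ^ (s - 1)) := by
      refine setIntegral_congr_fun measurableSet_Ioi ?_
      intro t ht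
      exact (h t ht).2
    rw [h2, integral_const_mul, Real.Gamma_eq_integral hs]

theorem k2_thm : S_K2 := by
  have hπ := Real.pi_pos
  have h7 : 0 < √Real.pi := Real.sqrt_pos.mpr hπ
  have h0 := tonelli (fun _ => 1) measurable_const (fun _ => zero_le_one)
    ((4 * Real.pi) ^ (-(1 / 2) : ℝ)) (1 / 2) (by norm_num)
    (fun t ht => by simpa using gauss0 ht)
  have h2 := tonelli (fun u => u ^ 2) (by fun_prop) (fun u => sq_nonneg u)
    ((√Real.pi)⁻¹) (3 / 2) (by norm_num) (fun t ht => gauss2 ht)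
  simp only [one_mul] at h0
  refine ⟨h0.1, ?_, h2.1, ?_⟩
  · rw [h0.2, Real.Gamma_one_half_eq, Real.rpow_neg (by positivity), ← Real.sqrt_eq_rpow,
      Real.sqrt_mul (by norm_num)]
    have : √(4 : ℝ) = 2 := by
      rw [show (4 : ℝ) = 2 ^ 2 by norm_num]
      exact Real.sqrt_sq (by norm_num)
    rw [this]
    field_simp
  · rw [h2.2]
    have h3 : Real.Gamma (3 / 2) = √Real.pi / 2 := by
      have : (3 : ℝ) / 2 = 1 / 2 + 1 := by norm_num
      rw [this, Real.Gamma_add_one (by norm_num), Real.Gamma_one_half_eq]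
      ring
    rw [h3]
    field_simp

/-- `exp (-x) ≤ x^(-1/4)` -/
lemma exp_neg_le' {x : ℝ} (hx : 0 < x) : Real.exp (-x) ≤ x ^ (-(1 / 4) : ℝ) := by
  rw [Real.exp_neg, Real.rpow_neg hx.le]
  have h1 : x ^ (1 / 4 : ℝ) ≤ Real.exp x := by
    rcases le_or_gt x 1 with h | h
    · refine (Real.rpow_le_one hx.le h (by norm_num)).trans ?_
      exact Real.one_le_exp hx.le
    · calc x ^ (1 / 4 : ℝ) ≤ x ^ (1 : ℝ) := Real.rpow_le_rpow_of_exponent_le h.le (by norm_num)
        _ = x := Real.rpow_one x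
        _ ≤ Real.exp x := by linarith [Real.add_one_le_exp x]
  exact inv_anti₀ (by positivity) h1

lemma gk_le' {r t : ℝ} (hr : 0 < r) (ht : 0 < t) :
    gk r t ≤ (4 * Real.pi)⁻¹ * 4 ^ (1 / 4 : ℝ) * r ^ (-(1 / 2) : ℝ) *
      (Real.exp (-t) * t ^ ((1 / 4 : ℝ) - 1)) := by
  unfold gk
  have h1 : Real.exp (-t - r ^ 2 / (4 * t)) = Real.exp (-t) * Real.exp (-(r ^ 2 / (4 * t))) := by
    rw [← Real.exp_add]; ring_nf
  have h2 : Real.exp (-(r ^ 2 / (4 * t))) ≤ (r ^ 2 / (4 * t)) ^ (-(1 / 4) : ℝ) :=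
    exp_neg_le' (by positivity)
  have h3 : (r ^ 2 / (4 * t)) ^ (-(1 / 4) : ℝ) = r ^ (-(1 / 2) : ℝ) * (4 ^ (1 / 4 : ℝ) *
      t ^ (1 / 4 : ℝ)) := by
    rw [Real.div_rpow (by positivity) (by positivity), ← Real.rpow_two,
      ← Real.rpow_mul hr.le, Real.rpow_neg (by positivity : (0 : ℝ) ≤ 4 * t), div_inv_eq_mul,
      Real.mul_rpow (by norm_num) ht.le]
    norm_num
  rw [h1]
  have h4 : (4 * Real.pi * t)⁻¹ * (Real.exp (-t) * Real.exp (-(r ^ 2 / (4 * t)))) ≤
      (4 * Real.pi * t)⁻¹ * (Real.exp (-t) * (r ^ 2 / (4 * t)) ^ (-(1 / 4) : ℝ)) := by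
    gcongr
  refine h4.trans (le_of_eq ?_)
  rw [h3, Real.rpow_sub_one ht.ne', mul_inv]
  field_simp

theorem k3_thm : S_K3 := by
  have hmeas := k1_thm.meas
  have hnn := k1_thm.nonneg
  have hπ := Real.pi_pos
  constructor
  · refine squeeze_zero' (Eventually.of_forall hnn)
      ((eventually_gt_atTop 0).mono fun r hr => kap_le hr) ?_
    have h1 : Tendsto (fun r : ℝ => Real.pi * r ^ 2) atTop atTop :=
      (tendsto_pow_atTop (by norm_num)).const_mul_atTop hπ
    refine h1.inv_tendsto_atTop.congr fun r => ?_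
    rw [Pi.inv_apply, one_div]
  · have hG : IntegrableOn (fun t : ℝ => Real.exp (-t) * t ^ ((1 / 4 : ℝ) - 1)) (Ioi 0) :=
      Real.GammaIntegral_convergent (by norm_num)
    obtain ⟨C, hC0, hC⟩ : ∃ C : ℝ, 0 ≤ C ∧ ∀ r : ℝ, 0 < r → kap r ≤ C * r ^ (-(1 / 2) : ℝ) := by
      refine ⟨(4 * Real.pi)⁻¹ * 4 ^ (1 / 4 : ℝ) *
        ∫ t in Ioi (0 : ℝ), Real.exp (-t) * t ^ ((1 / 4 : ℝ) - 1), ?_, ?_⟩
      · have : 0 ≤ ∫ t in Ioi (0 : ℝ), Real.exp (-t) * t ^ ((1 / 4 : ℝ) - 1) := by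
          refine setIntegral_nonneg measurableSet_Ioi ?_
          intro t ht
          have ht' : (0 : ℝ) < t := ht
          positivity
        positivity
      · intro r hr
        rw [kap_eq]
        have h1 : ∫ t in Ioi (0 : ℝ), gk r t ≤
            ∫ t in Ioi (0 : ℝ), (4 * Real.pi)⁻¹ * 4 ^ (1 / 4 : ℝ) * r ^ (-(1 / 2) : ℝ) *
      (Real.exp (-t) * t ^ ((1 / 4 : ℝ) - 1)) := by
          refine setIntegral_mono_on (gk_int hr) (hG.const_mul _) measurableSet_Ioi ?_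
          intro t ht
          exact gk_le' hr ht
        refine h1.trans (le_of_eq ?_)
        rw [integral_const_mul]
        ring
    have hm : AEStronglyMeasurable (fun u : ℝ => u * kap u ^ 2) volume := by
      have : Measurable (fun u : ℝ => u * kap u ^ 2) := by fun_prop
      exact this.aestronglyMeasurable
    have hsplit : Ioi (0 : ℝ) = Ioc 0 1 ∪ Ioi 1 := (Ioc_union_Ioi_eq_Ioi zero_le_one).symm
    rw [hsplit]
    refine IntegrableOn.union ?_ ?_
    · refine Integrable.mono' (g := fun _ => C ^ 2) ?_ hm.restrict ?_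
      · exact integrableOn_const (by simp)
      · filter_upwards [ae_restrict_mem measurableSet_Ioc] with u hu
        have hu0 : 0 < u := hu.1
        rw [Real.norm_of_nonneg (by have := hnn u; positivity)]
        have h1 : kap u ^ 2 ≤ (C * u ^ (-(1 / 2) : ℝ)) ^ 2 :=
          pow_le_pow_left₀ (hnn u) (hC u hu0) 2
        have h2 : (C * u ^ (-(1 / 2) : ℝ)) ^ 2 = C ^ 2 * u⁻¹ := by
          rw [mul_pow, ← Real.rpow_natCast (u ^ (-(1 / 2) : ℝ)) 2, ← Real.rpow_mul hu0.le]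
          norm_num
          left
          exact Real.rpow_neg_one u
        calc u * kap u ^ 2 ≤ u * (C ^ 2 * u⁻¹) := by
              rw [← h2]; exact mul_le_mul_of_nonneg_left h1 hu0.le
          _ = C ^ 2 := by field_simp
    · have h3 : IntegrableOn (fun u : ℝ => (1 / Real.pi) ^ 2 * u ^ (-3 : ℝ)) (Ioi 1) :=
        (integrableOn_Ioi_rpow_of_lt (by norm_num) zero_lt_one).const_mul _
      refine Integrable.mono' h3 hm.restrict ?_
      filter_upwards [ae_restrict_mem measurableSet_Ioi] with u hu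
      have hu0 : 0 < u := lt_trans zero_lt_one hu
      rw [Real.norm_of_nonneg (by have := hnn u; positivity)]
      have h1 : kap u ^ 2 ≤ (1 / (Real.pi * u ^ 2)) ^ 2 :=
        pow_le_pow_left₀ (hnn u) (kap_le hu0) 2
      have h4 : u ^ (-3 : ℝ) = (u ^ 3)⁻¹ := by
        rw [Real.rpow_neg hu0.le]
        norm_num
      rw [h4]
      calc u * kap u ^ 2 ≤ u * (1 / (Real.pi * u ^ 2)) ^ 2 :=
            mul_le_mul_of_nonneg_left h1 hu0.le
        _ = (1 / Real.pi) ^ 2 * (u ^ 3)⁻¹ := by field_simp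

end Pool.Agent.Helper38.LK
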